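import Pool.Agent.J4H92.CM.Stm

set_option autoImplicit false

/-! # (MEL) (helper37, project CM of helper92) -/

namespace Pool.Agent.J4H37.CM

open Filter Topology Asymptotics MeasureTheory Pool.Agent.J4H92.CM

theorem t_MEL : S_MEL := by
  intro f C hf s hs
  change -(1 / 2 : ℝ) < s.re at hs
  obtain ⟨G, hG⟩ : ∃ G : ℝ → ℂ, G = (Set.Ioi (1 : ℝ)).indicator (fun t => S f ⌊t⌋₊) := ⟨_, rfl⟩
  have hm : m f = fun s => mellin G (-s) := by
    funext s
    unfold m mellin
    have e1 : (fun t : ℝ => (t : ℂ) ^ (-s - 1) • G t) =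
        (Set.Ioi (1 : ℝ)).indicator (fun t : ℝ => S f ⌊t⌋₊ * (t : ℂ) ^ (-(s + 1))) := by
      funext t
      rw [hG]
      by_cases ht : t ∈ Set.Ioi (1 : ℝ)
      · rw [Set.indicator_of_mem ht, Set.indicator_of_mem ht, smul_eq_mul, mul_comm]
        congr 2
        ring
      · rw [Set.indicator_of_notMem ht, Set.indicator_of_notMem ht, smul_zero]
    rw [e1, setIntegral_indicator measurableSet_Ioi]
    congr 2
    ext t
    simp only [Set.mem_inter_iff, Set.mem_Ioi]
    constructor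
    · intro h
      exact ⟨by linarith, h⟩
    · exact fun h => h.2
  have hb : ∀ t : ℝ, 1 < t → ‖S f ⌊t⌋₊‖ ≤ |C| / Real.sqrt ⌊t⌋₊ := by
    intro t ht
    have h1 : 0 < ⌊t⌋₊ := Nat.floor_pos.2 ht.le
    refine (hf _ h1).trans ?_
    gcongr
    exact le_abs_self C
  have hb1 : ∀ t : ℝ, ‖G t‖ ≤ |C| := by
    intro t
    rw [hG]
    by_cases ht : t ∈ Set.Ioi (1 : ℝ)
    · rw [Set.indicator_of_mem ht]
      refine (hb t ht).trans ?_
      have h1 : 1 ≤ ⌊t⌋₊ := Nat.floor_pos.2 (le_of_lt ht)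
      have h2 : (1 : ℝ) ≤ Real.sqrt ⌊t⌋₊ := by
        rw [Real.one_le_sqrt]
        exact_mod_cast h1
      exact div_le_self (abs_nonneg _) h2
    · rw [Set.indicator_of_notMem ht, norm_zero]
      exact abs_nonneg _
  have hmeas : Measurable G := by
    rw [hG]
    exact ((measurable_from_top (f := S f)).comp Nat.measurable_floor).indicator measurableSet_Ioi
  have hfc : LocallyIntegrableOn G (Set.Ioi 0) := by
    have h1 : LocallyIntegrable G volume :=
      (locallyIntegrable_const (|C|)).mono hmeas.aestronglyMeasurable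
        (Eventually.of_forall fun t => by
          rw [Real.norm_eq_abs, abs_abs]
          exact hb1 t)
    exact h1.locallyIntegrableOn _
  have htop : G =O[atTop] (fun t : ℝ => t ^ (-(1 / 2 : ℝ))) := by
    refine IsBigO.of_bound (|C| * Real.sqrt 2) ?_
    filter_upwards [eventually_ge_atTop (2 : ℝ)] with t ht
    have ht1 : 1 < t := by linarith
    have ht0 : 0 < t := by linarith
    rw [hG, Set.indicator_of_mem (show t ∈ Set.Ioi (1 : ℝ) from ht1)]
    refine (hb t ht1).trans ?_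
    have h1 : t / 2 ≤ (⌊t⌋₊ : ℝ) := by
      have := Nat.lt_floor_add_one t
      linarith
    rw [Real.norm_eq_abs, abs_of_nonneg (Real.rpow_nonneg ht0.le (-(1 / 2 : ℝ))), Real.rpow_neg ht0.le,
      ← Real.sqrt_eq_rpow, mul_assoc, div_eq_mul_inv]
    gcongr
    have h2 : Real.sqrt 2 * (Real.sqrt t)⁻¹ = (Real.sqrt (t / 2))⁻¹ := by
      rw [Real.sqrt_div ht0.le, inv_div, div_eq_mul_inv]
    rw [h2]
    have h3 : 0 < Real.sqrt (t / 2) := Real.sqrt_pos.2 (by linarith)
    exact inv_anti₀ h3 (Real.sqrt_le_sqrt h1)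
  have hbot : G =O[𝓝[>] 0] (fun t : ℝ => t ^ (-((-s).re - 1))) := by
    refine IsBigO.of_bound 1 ?_
    have h1 : ∀ᶠ t : ℝ in 𝓝[>] 0, t < 1 :=
      nhdsWithin_le_nhds (gt_mem_nhds one_pos)
    filter_upwards [h1] with t ht
    rw [hG, Set.indicator_of_notMem (show t ∉ Set.Ioi (1 : ℝ) from not_lt.2 ht.le), norm_zero]
    positivity
  have h1 : DifferentiableAt ℂ (mellin G) (-s) := by
    refine mellin_differentiableAt_of_isBigO_rpow hfc htop ?_ hbot ?_
    · rw [Complex.neg_re]
      linarith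
    · linarith
  rw [hm]
  have h2 : DifferentiableAt ℂ (fun s => mellin G (-s)) s :=
    h1.comp s differentiableAt_id.neg
  exact h2.differentiableWithinAt

end Pool.Agent.J4H37.CM
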